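import Pool.Agent.W661.RC.Stm3

/-!
# The relative commutant is an ultraproduct of finite-dimensional algebras
-/

set_option autoImplicit false

namespace Pool.Agent.W348.RC

open Matrix Filter Topology
open scoped ComplexOrder
open scoped Matrix.Norms.L2Operator
open Pool.Agent.W661.RC

lemma quad {d : ℕ} (x : Mt d) (v : Fin d → ℂ) :
    star v ⬝ᵥ ((xᴴ * x) *ᵥ v) =
      ((‖(WithLp.toLp 2 (x *ᵥ v) : EuclideanSpace ℂ (Fin d))‖ ^ 2 : ℝ) : ℂ) := by
  rw [← Matrix.mulVec_mulVec, Matrix.dotProduct_mulVec, ← Matrix.star_mulVec,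
    EuclideanSpace.norm_sq_eq]
  push_cast
  unfold dotProduct
  refine Finset.sum_congr rfl fun i _ => ?_
  simp only [Pi.star_apply]
  exact Complex.conj_mul' _

lemma quad1 {d : ℕ} (v : Fin d → ℂ) :
    star v ⬝ᵥ v = ((‖(WithLp.toLp 2 v : EuclideanSpace ℂ (Fin d))‖ ^ 2 : ℝ) : ℂ) := by
  have := quad (1 : Mt d) v
  simpa using this

lemma le_iff {d : ℕ} (x : Mt d) : Le (xᴴ * x) 1 ↔
    ∀ v : Fin d → ℂ, ‖(WithLp.toLp 2 (x *ᵥ v) : EuclideanSpace ℂ (Fin d))‖ ≤
      ‖(WithLp.toLp 2 v : EuclideanSpace ℂ (Fin d))‖ := by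
  have key : ∀ v : Fin d → ℂ, star v ⬝ᵥ ((1 - xᴴ * x) *ᵥ v) =
      ((‖(WithLp.toLp 2 v : EuclideanSpace ℂ (Fin d))‖ ^ 2 -
        ‖(WithLp.toLp 2 (x *ᵥ v) : EuclideanSpace ℂ (Fin d))‖ ^ 2 : ℝ) : ℂ) := by
    intro v
    rw [Matrix.sub_mulVec, Matrix.one_mulVec, dotProduct_sub, quad1, quad]
    push_cast
    rfl
  unfold Le
  rw [Matrix.posSemidef_iff_dotProduct_mulVec]
  constructor
  · rintro ⟨-, h⟩ v
    have h1 := h v
    rw [key v, Complex.zero_le_real, sub_nonneg] at h1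
    exact (sq_le_sq₀ (norm_nonneg _) (norm_nonneg _)).1 h1
  · intro h
    refine ⟨?_, fun v => ?_⟩
    · exact Matrix.isHermitian_one.sub (Matrix.isHermitian_conjTranspose_mul_self x)
    · rw [key v, Complex.zero_le_real, sub_nonneg]
      exact (sq_le_sq₀ (norm_nonneg _) (norm_nonneg _)).2 (h v)

lemma le_iff_norm {d : ℕ} (x : Mt d) : Le (xᴴ * x) 1 ↔ ‖x‖ ≤ 1 := by
  rw [le_iff]
  constructor
  · intro h
    rw [Matrix.l2_opNorm_def]
    refine ContinuousLinearMap.opNorm_le_bound _ zero_le_one fun v => ?_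
    rw [one_mul]
    exact h (v.ofLp)
  · intro h v
    have h1 := Matrix.l2_opNorm_mulVec x (WithLp.toLp 2 v : EuclideanSpace ℂ (Fin d))
    refine le_trans (le_of_eq ?_) (h1.trans ?_)
    · rfl
    · exact mul_le_of_le_one_left (norm_nonneg _) h

lemma hs_smul {d : ℕ} (c : ℂ) (x : Mt d) : hs (c • x) = ‖c‖ ^ 2 * hs x := by
  unfold hs
  rw [Finset.mul_sum]
  refine Finset.sum_congr rfl fun i _ => ?_
  rw [Finset.mul_sum]
  refine Finset.sum_congr rfl fun j _ => ?_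
  rw [Matrix.smul_apply, norm_smul, mul_pow]

lemma en_smul {d k : ℕ} (u : Fin k → Mt d) (c : ℂ) (x : Mt d) :
    en u (c • x) = ‖c‖ ^ 2 * en u x := by
  unfold en
  rw [Finset.mul_sum]
  refine Finset.sum_congr rfl fun s _ => ?_
  rw [← hs_smul]
  congr 1
  rw [Matrix.mul_smul, Matrix.smul_mul, smul_sub]

lemma en_ge {d k : ℕ} (u : Fin k → Mt d) (x : Mt d) (s : Fin k) :
    hs (u s * x - x * u s) ≤ en u x := by
  unfold en
  exact Finset.single_le_sum (f := fun s => hs (u s * x - x * u s))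
    (fun s _ => hs_nonneg' _) (Finset.mem_univ s)

lemma en_nonneg {d k : ℕ} (u : Fin k → Mt d) (x : Mt d) : 0 ≤ en u x :=
  Finset.sum_nonneg fun _ _ => hs_nonneg' _

lemma mkU_eq {𝒰 : Ultrafilter ℕ} {d : ℕ → ℕ} (x y : BSeq d) :
    mkU 𝒰 d x = mkU 𝒰 d y ↔
      Tendsto (fun n => hs ((x : ∀ n, Mt (d n)) n - (y : ∀ n, Mt (d n)) n) / d n) 𝒰 (𝓝 0) := by
  have h1 : mkU 𝒰 d x = mkU 𝒰 d y ↔ (NullI 𝒰 d).ringCon x y := RingCon.eq _
  rw [h1, TwoSidedIdeal.rel_iff]
  unfold NullI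
  rw [TwoSidedIdeal.mem_mk']
  rfl

lemma mkU_comm {𝒰 : Ultrafilter ℕ} {d : ℕ → ℕ} (x u : BSeq d) :
    mkU 𝒰 d x * mkU 𝒰 d u = mkU 𝒰 d u * mkU 𝒰 d x ↔
      Tendsto (fun n => hs ((u : ∀ n, Mt (d n)) n * (x : ∀ n, Mt (d n)) n -
        (x : ∀ n, Mt (d n)) n * (u : ∀ n, Mt (d n)) n) / d n) 𝒰 (𝓝 0) := by
  rw [← map_mul, ← map_mul, eq_comm, mkU_eq]
  simp only [Subring.coe_mul, Pi.mul_apply]

/-- the commutant of a generating set -/
lemma comm_all {G R : Type} [Group G] [Ring R] (π : G →* R) (S : Set G)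
    (hS : Subgroup.closure S = ⊤) (y : R) (h : ∀ s ∈ S, y * π s = π s * y) (g : G) :
    y * π g = π g * y := by
  have hg : g ∈ Subgroup.closure S := by rw [hS]; trivial
  induction hg using Subgroup.closure_induction with
  | mem s hs => exact h s hs
  | one => rw [map_one, mul_one, one_mul]
  | mul a b _ _ ha hb => rw [map_mul, ← mul_assoc, ha, mul_assoc, hb, mul_assoc]
  | inv a _ ha =>
    have e1 : π a⁻¹ * π a = 1 := by rw [← map_mul, inv_mul_cancel, map_one]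
    have e2 : π a * π a⁻¹ = 1 := by rw [← map_mul, mul_inv_cancel, map_one]
    calc y * π a⁻¹ = (π a⁻¹ * π a) * y * π a⁻¹ := by rw [e1, one_mul]
      _ = π a⁻¹ * (y * π a) * π a⁻¹ := by rw [ha]; noncomm_ring
      _ = π a⁻¹ * y * (π a * π a⁻¹) := by noncomm_ring
      _ = π a⁻¹ * y := by rw [e2, mul_one]

open Classical in
theorem main (hM : MidP) (hL : LftP) (hA : AlgP) : Re1P := by
  intro G _ _ S 𝒰 d π hT hS hcof hd hun
  set k := S.card with hk
  set γ : FreeGroup (Fin k) →* G := FreeGroup.lift (fun i => (S.equivFin.symm i : G)) with hγ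
  have hγof : ∀ i, γ (FreeGroup.of i) = (S.equivFin.symm i : G) := fun i => by
    rw [hγ, FreeGroup.lift_apply_of]
  have hγS : ∀ s ∈ S, ∃ i, γ (FreeGroup.of i) = s := by
    intro s hs
    refine ⟨S.equivFin ⟨s, hs⟩, ?_⟩
    rw [hγof, Equiv.symm_apply_apply]
  have hsurj : Function.Surjective γ := by
    rw [← MonoidHom.range_eq_top, eq_top_iff, ← hS, Subgroup.closure_le]
    intro s hs
    obtain ⟨i, hi⟩ := hγS s hs
    exact ⟨FreeGroup.of i, hi⟩
  have hU : ∀ s : Fin k, ∃ U : ∀ n, Matrix.unitaryGroup (Fin (d n)) ℂ,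
      mkU 𝒰 d (unB U) = π (γ (FreeGroup.of s)) := fun s => hL 𝒰 d _ hd (hun _)
  choose U hU using hU
  obtain ⟨K0, ε, O, b, hK0, hε, hev⟩ := hM G k γ 𝒰 d π U hT hsurj hcof hd hU
  choose A hAeq using fun n => hA (d n) (O n)
  have hAmem : ∀ n x, x ∈ A n ↔ x ∈ (O n).alg := fun n x => by
    rw [← hAeq n]; rfl
  have hdpos : ∀ n, (0 : ℝ) < d n := fun n => by exact_mod_cast hd n
  refine ⟨A, ?_⟩
  ext y
  simp only [Set.mem_ofPred_eq]
  constructor
  · -- elements of the commutant are represented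
    intro hy
    obtain ⟨x, rfl⟩ : ∃ x, mkU 𝒰 d x = y := RingCon.mk'_surjective _ y
    obtain ⟨B₀, hB₀⟩ := x.2
    set B : ℝ := max B₀ 1 with hB
    have hB1 : 1 ≤ B := le_max_right _ _
    have hB0 : 0 < B := by linarith
    have hBx : ∀ n, ‖(x : ∀ n, Mt (d n)) n‖ ≤ B := fun n => (hB₀ n).trans (le_max_left _ _)
    have hBC : (B : ℂ) ≠ 0 := by exact_mod_cast hB0.ne'
    have hnB : ‖(B : ℂ)‖ = B := by rw [Complex.norm_real, Real.norm_of_nonneg hB0.le]
    have hnBi : ‖((B : ℂ))⁻¹‖ = B⁻¹ := by rw [norm_inv, hnB]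
    set x' : ∀ n, Mt (d n) := fun n => (B : ℂ)⁻¹ • (x : ∀ n, Mt (d n)) n with hx'
    have hx'le : ∀ n, Le ((x' n)ᴴ * x' n) 1 := by
      intro n
      rw [le_iff_norm, hx']
      simp only
      rw [norm_smul, hnBi]
      rw [inv_mul_le_iff₀ hB0, mul_one]
      exact hBx n
    have hBx' : ∀ n, (x : ∀ n, Mt (d n)) n = (B : ℂ) • x' n := by
      intro n
      rw [hx']
      simp only
      rw [smul_smul, mul_inv_cancel₀ hBC, one_smul]
    set a' : ∀ n, Mt (d n) := fun n =>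
      if h : ∃ a ∈ (O n).alg, Le (aᴴ * a) 1 ∧
        hs (x' n - a) ≤ K0 * en (fun s => (U s n : Mt (d n))) (x' n) + ε n * d n
      then h.choose else 0 with ha'
    have ha'1 : ∀ n, a' n ∈ A n ∧ ‖a' n‖ ≤ 1 := by
      intro n
      rw [ha']
      simp only
      split_ifs with h
      · exact ⟨(hAmem n _).2 h.choose_spec.1, (le_iff_norm _).1 h.choose_spec.2.1⟩
      · exact ⟨(A n).zero_mem, by simp⟩
    have ha'2 : ∀ᶠ n in (𝒰 : Filter ℕ),
        hs (x' n - a' n) ≤ K0 * en (fun s => (U s n : Mt (d n))) (x' n) + ε n * d n := by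
      filter_upwards [hev] with n hn
      have h := hn.2.2.2.1 (x' n) (hx'le n)
      rw [ha']
      simp only
      rw [dif_pos h]
      exact h.choose_spec.2.2
    set a : BSeq d := ⟨fun n => (B : ℂ) • a' n, B, fun n => by
      rw [norm_smul, hnB]
      exact mul_le_of_le_one_right hB0.le (ha'1 n).2⟩ with ha
    refine ⟨a, fun n => (A n).toSubmodule.smul_mem _ (ha'1 n).1, ?_⟩
    rw [mkU_eq]
    -- the energies tend to zero
    have hen : Tendsto (fun n => en (fun s => (U s n : Mt (d n))) ((x : ∀ n, Mt (d n)) n) / d n)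
        𝒰 (𝓝 0) := by
      have h1 : ∀ s : Fin k, Tendsto (fun n => hs ((U s n : Mt (d n)) * (x : ∀ n, Mt (d n)) n -
          (x : ∀ n, Mt (d n)) n * (U s n : Mt (d n))) / d n) 𝒰 (𝓝 0) := by
        intro s
        have h2 := hy (γ (FreeGroup.of s))
        rw [← hU s] at h2
        exact (mkU_comm x (unB (U s))).1 h2
      have h3 := tendsto_finsetSum (Finset.univ : Finset (Fin k)) (fun s _ => h1 s)
      rw [Finset.sum_const_zero] at h3
      refine h3.congr fun n => ?_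
      unfold en
      rw [Finset.sum_div]
    have hlim : Tendsto (fun n => K0 * (en (fun s => (U s n : Mt (d n)))
        ((x : ∀ n, Mt (d n)) n) / d n) + B ^ 2 * ε n) 𝒰 (𝓝 0) := by
      have := (hen.const_mul K0).add (hε.const_mul (B ^ 2))
      simpa using this
    refine squeeze_zero' (Eventually.of_forall fun n =>
      div_nonneg (hs_nonneg' _) (hdpos n).le) ?_ hlim
    filter_upwards [ha'2] with n hn
    rw [div_le_iff₀ (hdpos n)]
    have e1 : (a : ∀ n, Mt (d n)) n - (x : ∀ n, Mt (d n)) n = (B : ℂ) • -(x' n - a' n) := by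
      rw [hBx' n, ha]
      simp only
      rw [neg_sub, smul_sub]
    rw [e1, hs_smul, hs_neg', hnB]
    have e2 : en (fun s => (U s n : Mt (d n))) (x' n) =
        (B⁻¹) ^ 2 * en (fun s => (U s n : Mt (d n))) ((x : ∀ n, Mt (d n)) n) := by
      rw [hx']
      simp only
      rw [en_smul, hnBi]
    rw [e2] at hn
    calc B ^ 2 * hs (x' n - a' n) ≤ B ^ 2 * (K0 * ((B⁻¹) ^ 2 *
          en (fun s => (U s n : Mt (d n))) ((x : ∀ n, Mt (d n)) n)) + ε n * d n) :=
          mul_le_mul_of_nonneg_left hn (by positivity)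
      _ = _ := by
          have := hdpos n
          field_simp
  · rintro ⟨a, haA, rfl⟩
    refine comm_all π (S : Set G) hS _ ?_
    intro g hg
    obtain ⟨s, rfl⟩ := hγS g hg
    rw [← hU s]
    refine (mkU_comm a (unB (U s))).2 ?_
    obtain ⟨B₀, hB₀⟩ := a.2
    set B : ℝ := max B₀ 1 with hB
    have hB1 : 1 ≤ B := le_max_right _ _
    have hB0 : 0 < B := by linarith
    have hBx : ∀ n, ‖(a : ∀ n, Mt (d n)) n‖ ≤ B := fun n => (hB₀ n).trans (le_max_left _ _)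
    have hBC : (B : ℂ) ≠ 0 := by exact_mod_cast hB0.ne'
    have hnB : ‖(B : ℂ)‖ = B := by rw [Complex.norm_real, Real.norm_of_nonneg hB0.le]
    have hnBi : ‖((B : ℂ))⁻¹‖ = B⁻¹ := by rw [norm_inv, hnB]
    have hlim : Tendsto (fun n => B ^ 2 * ε n) 𝒰 (𝓝 0) := by
      simpa using hε.const_mul (B ^ 2)
    refine squeeze_zero' (Eventually.of_forall fun n =>
      div_nonneg (hs_nonneg' _) (hdpos n).le) ?_ hlim
    filter_upwards [hev] with n hn
    rw [div_le_iff₀ (hdpos n)]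
    have h1 := hn.2.2.1 ((B : ℂ)⁻¹ • (a : ∀ n, Mt (d n)) n)
      ((hAmem n _).1 ((A n).toSubmodule.smul_mem _ (haA n))) (by
        rw [le_iff_norm, norm_smul, hnBi, inv_mul_le_iff₀ hB0, mul_one]
        exact hBx n)
    rw [en_smul, hnBi] at h1
    have h2 := en_ge (fun s => (U s n : Mt (d n))) ((a : ∀ n, Mt (d n)) n) s
    have h3 : en (fun s => (U s n : Mt (d n))) ((a : ∀ n, Mt (d n)) n) ≤ B ^ 2 * ε n * d n := by
      have h4 := mul_le_mul_of_nonneg_left h1 (by positivity : (0 : ℝ) ≤ B ^ 2)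
      have e : B ^ 2 * (B⁻¹ ^ 2 * en (fun s => (U s n : Mt (d n))) ((a : ∀ n, Mt (d n)) n)) =
          en (fun s => (U s n : Mt (d n))) ((a : ∀ n, Mt (d n)) n) := by
        field_simp
      rw [e] at h4
      linarith
    exact h2.trans h3

end Pool.Agent.W348.RC
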